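import Mathlib
import Pool.Agent.H.MP_a7cd30_an.B

namespace Pool.Agent.H.MP_86dbc5_an

open MeasureTheory Set Filter Topology ProbabilityTheory Pool.Agent.H.MP_a7cd30_an
open scoped RealInnerProductSpace

variable {α : Type} [mα : MeasurableSpace α] [StandardBorelSpace α] {μ : Measure α}

theorem realize' {f g : α → α} (hf : MeasurePreserving f μ μ) (hg : Measurable g)
    (hgf : ∀ᵐ x ∂μ, g (f x) = x) :
    ∃ e : {e : α ≃ᵐ α // MeasurePreserving e.toFun μ μ}, ⇑e.1 =ᵐ[μ] f := by
  classical
  have hg' : MeasurePreserving g μ μ := by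
    refine ⟨hg, ?_⟩
    conv_lhs => rw [← hf.map_eq]
    rw [Measure.map_map hg hf.measurable, Measure.map_congr (f := g ∘ f) (g := id) hgf,
      Measure.map_id]
  have hm1 : MeasurableSet {x | g (f x) = x} :=
    measurableSet_eq_fun (hg.comp hf.measurable) measurable_id
  have hm2 : MeasurableSet {x | f (g x) = x} :=
    measurableSet_eq_fun (hf.measurable.comp hg) measurable_id
  have hfg : ∀ᵐ y ∂μ, f (g y) = y := by
    rw [← hf.map_eq, ae_map_iff hf.measurable.aemeasurable hm2]
    filter_upwards [hgf] with x hx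
    rw [hx]
  let A : Set α := {x | g (f x) = x} ∩ {x | f (g x) = x}
  have hA : MeasurableSet A := hm1.inter hm2
  have hAae : ∀ᵐ x ∂μ, x ∈ A := hgf.and hfg
  let B : Set α := {x | ∀ n m : ℕ, f^[n] (g^[m] x) ∈ A}
  have hB : MeasurableSet B := by
    have : B = ⋂ n : ℕ, ⋂ m : ℕ, (f^[n] ∘ g^[m]) ⁻¹' A := by ext x; simp [B]
    rw [this]
    exact MeasurableSet.iInter fun n => MeasurableSet.iInter fun m =>
      ((hf.measurable.iterate n).comp (hg.iterate m)) hA
  have hBae : ∀ᵐ x ∂μ, x ∈ B := by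
    refine ae_all_iff.2 fun n => ae_all_iff.2 fun m => ?_
    exact ((hf.iterate n).comp (hg'.iterate m)).quasiMeasurePreserving.ae hAae
  have hBA : ∀ x ∈ B, x ∈ A := fun x hx => hx 0 0
  have hBg : ∀ x ∈ B, g x ∈ B := fun x hx n m => by
    rw [← Function.iterate_succ_apply]; exact hx n (m + 1)
  have hBf : ∀ x ∈ B, f x ∈ B := fun x hx n m => by
    cases m with
    | zero => exact hx (n + 1) 0
    | succ m =>
      rw [Function.iterate_succ_apply, (hBA x hx).1]
      exact hx n m
  let e : α ≃ᵐ α :=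
    { toFun := B.piecewise f id
      invFun := B.piecewise g id
      left_inv := fun x => by
        by_cases hx : x ∈ B
        · rw [piecewise_eq_of_mem _ _ _ hx, piecewise_eq_of_mem _ _ _ (hBf x hx)]
          exact (hBA x hx).1
        · rw [piecewise_eq_of_notMem _ _ _ hx, id, piecewise_eq_of_notMem _ _ _ hx, id]
      right_inv := fun x => by
        by_cases hx : x ∈ B
        · rw [piecewise_eq_of_mem _ _ _ hx, piecewise_eq_of_mem _ _ _ (hBg x hx)]
          exact (hBA x hx).2
        · rw [piecewise_eq_of_notMem _ _ _ hx, id, piecewise_eq_of_notMem _ _ _ hx, id]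
      measurable_toFun := hf.measurable.piecewise hB measurable_id
      measurable_invFun := hg.piecewise hB measurable_id }
  have he : ⇑e =ᵐ[μ] f := hBae.mono fun x hx => piecewise_eq_of_mem _ _ _ hx
  exact ⟨⟨e, hf.congr e.measurable he.symm⟩, he⟩

theorem iso [IsProbabilityMeasure μ] [NullSingletonClass μ] :
    ∃ (f : α → ℝ) (g : ℝ → α), MeasurePreserving f μ mu ∧ MeasurePreserving g mu μ ∧
      (∀ᵐ x ∂μ, g (f x) = x) ∧ ∀ᵐ y ∂mu, f (g y) = y := by
  classical
  have : Nonempty α := nonempty_of_isProbabilityMeasure μ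
  have hemb0 := measurableEmbedding_embeddingReal α
  set ψ := embeddingReal α
  have hψ := hemb0.measurable
  have hi := hemb0.injective
  have : IsProbabilityMeasure (μ.map ψ) := Measure.isProbabilityMeasure_map hψ.aemeasurable
  set ν := μ.map ψ with hν
  have hat : ∀ y, ν {y} = 0 := fun y => by
    rw [hν, Measure.map_apply hψ (measurableSet_singleton y)]
    exact (subsingleton_singleton.preimage hi).measure_zero _
  have h1 : MeasurePreserving (cdf ν ∘ ψ) μ mu := (cdf_mp ν hat).comp ⟨hψ, rfl⟩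
  let E : Set α := ⋂ q : ℚ, {x | ψ x ≤ q} ∪ {x | cdf ν q < cdf ν (ψ x)}
  have hE : MeasurableSet E := MeasurableSet.iInter fun q =>
    (measurableSet_le hψ measurable_const).union
      (measurableSet_lt measurable_const h1.measurable)
  have hEae : ∀ᵐ x ∂μ, x ∈ E := by
    simp only [E, mem_iInter]
    refine ae_all_iff.2 fun q => ?_
    have : ∀ᵐ y ∂mu, y ≠ cdf ν q := Measure.ae_ne _ _
    filter_upwards [h1.quasiMeasurePreserving.ae this] with x hx
    rcases le_or_gt (ψ x) q with h | h
    · exact Or.inl h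
    · exact Or.inr (lt_of_le_of_ne (monotone_cdf ν h.le) (Ne.symm hx))
  have hlt : ∀ x y, y ∈ E → ψ x < ψ y → cdf ν (ψ x) < cdf ν (ψ y) := by
    intro x y hy hxy
    obtain ⟨q, hq1, hq2⟩ := exists_rat_btwn hxy
    rcases mem_iInter.1 hy q with h | h
    · exact absurd h (not_le.2 hq2)
    · exact (monotone_cdf ν hq1.le).trans_lt h
  let R1 : α → ℝ := E.piecewise (cdf ν ∘ ψ) fun x => 2 + Real.exp (ψ x)
  have hR1 : Measurable R1 := h1.measurable.piecewise hE (by fun_prop)
  have hinj : Function.Injective R1 := by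
    intro x y hxy
    by_cases hx : x ∈ E <;> by_cases hy : y ∈ E
    · simp only [R1, piecewise_eq_of_mem _ _ _ hx, piecewise_eq_of_mem _ _ _ hy,
        Function.comp] at hxy
      rcases lt_trichotomy (ψ x) (ψ y) with h | h | h
      · exact absurd hxy (hlt x y hy h).ne
      · exact hi h
      · exact absurd hxy.symm (hlt y x hx h).ne
    · simp only [R1, piecewise_eq_of_mem _ _ _ hx, piecewise_eq_of_notMem _ _ _ hy,
        Function.comp] at hxy
      linarith [cdf_le_one ν (ψ x), Real.exp_pos (ψ y)]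
    · simp only [R1, piecewise_eq_of_notMem _ _ _ hx, piecewise_eq_of_mem _ _ _ hy,
        Function.comp] at hxy
      linarith [cdf_le_one ν (ψ y), Real.exp_pos (ψ x)]
    · simp only [R1, piecewise_eq_of_notMem _ _ _ hx, piecewise_eq_of_notMem _ _ _ hy] at hxy
      exact hi (Real.exp_injective (add_left_cancel hxy))
  have hemb := hR1.measurableEmbedding hinj
  have hg := hemb.measurable_invFun
  have hgf : ∀ᵐ x ∂μ, hemb.invFun ((cdf ν ∘ ψ) x) = x := hEae.mono fun x hx => by
    have : (cdf ν ∘ ψ) x = R1 x := (piecewise_eq_of_mem _ _ _ hx).symm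
    rw [this, hemb.leftInverse_invFun]
  refine ⟨cdf ν ∘ ψ, hemb.invFun, h1, ⟨hg, ?_⟩, hgf, ?_⟩
  · rw [← h1.map_eq, Measure.map_map hg h1.measurable,
      Measure.map_congr (f := hemb.invFun ∘ (cdf ν ∘ ψ)) (g := id) hgf, Measure.map_id]
  · have hm : MeasurableSet {y | (cdf ν ∘ ψ) (hemb.invFun y) = y} :=
      measurableSet_eq_fun (h1.measurable.comp hg) measurable_id
    rw [← h1.map_eq, ae_map_iff h1.measurable.aemeasurable hm]
    filter_upwards [hgf] with x hx
    exact congrArg _ hx

theorem iso01 [IsProbabilityMeasure μ] [NullSingletonClass μ] :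
    ∃ (f : α → unitInterval) (g : unitInterval → α), MeasurePreserving f μ volume ∧
      MeasurePreserving g volume μ ∧ (∀ᵐ x ∂μ, g (f x) = x) ∧ ∀ᵐ y, f (g y) = y := by
  obtain ⟨f, g, hf, hg, gf, fg⟩ := iso (μ := μ)
  have hv : MeasurePreserving ((↑) : unitInterval → ℝ) volume mu :=
    unitInterval.measurePreserving_coe
  have hpm : Measurable (projIcc (0 : ℝ) 1 zero_le_one) := continuous_projIcc.measurable
  have hp : MeasurePreserving (projIcc (0 : ℝ) 1 zero_le_one) mu volume := by
    refine ⟨hpm, ?_⟩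
    rw [← hv.map_eq, Measure.map_map hpm hv.measurable]
    have : (projIcc (0 : ℝ) 1 zero_le_one) ∘ ((↑) : unitInterval → ℝ) = id := by
      funext x; simp
    rw [this, Measure.map_id]
  refine ⟨_, _, hp.comp hf, hg.comp hv, ?_, ?_⟩
  · filter_upwards [gf, hf.quasiMeasurePreserving.ae ae_unit] with x h1 h2
    simp only [Function.comp, projIcc_of_mem _ h2, h1]
  · filter_upwards [hv.quasiMeasurePreserving.ae fg] with x h1
    simp only [Function.comp, h1, projIcc_val]

/-- closed rational interval -/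
def iv (p : ℚ × ℚ) : Set unitInterval := {x | ((p.1 : ℚ) : ℝ) ≤ (x : ℝ) ∧ (x : ℝ) ≤ ((p.2 : ℚ) : ℝ)}

theorem iv_meas (p : ℚ × ℚ) : MeasurableSet (iv p) :=
  (measurableSet_Icc (a := (p.1 : ℝ)) (b := (p.2 : ℝ))).preimage measurable_subtype_coe

/-- the code of a map -/
noncomputable def cd (T : unitInterval → unitInterval) : (ℚ × ℚ) × (ℚ × ℚ) → ℝ :=
  fun p => (volume (T ⁻¹' iv p.1 ∩ iv p.2)).toReal

theorem cd_congr {U V : unitInterval → unitInterval} (h : U =ᵐ[volume] V) : cd U = cd V := by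
  funext p
  unfold cd
  congr 1
  refine measure_congr (EventuallyEq.inter ?_ (ae_eq_refl _))
  filter_upwards [h] with x hx
  show (U x ∈ iv p.1) = (V x ∈ iv p.1)
  rw [hx]

theorem ae_of_iv {A B : Set unitInterval} (hA : MeasurableSet A) (hB : MeasurableSet B)
    (h : ∀ p, volume (A ∩ iv p) = volume (B ∩ iv p)) : A =ᵐ[volume] B := by
  have key : ∀ (C : Set unitInterval) (a b : ℚ),
      ((volume.restrict C).map ((↑) : unitInterval → ℝ)) (Ioo a b) = volume (C ∩ iv (a, b)) := by
    intro C a b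
    rw [Measure.map_apply measurable_subtype_coe measurableSet_Ioo,
      Measure.restrict_apply (measurableSet_Ioo.preimage measurable_subtype_coe), inter_comm]
    refine measure_congr (EventuallyEq.inter (ae_eq_refl _) ?_)
    exact unitInterval.measurePreserving_coe.quasiMeasurePreserving.preimage_ae_eq
      (Ioo_ae_eq_Icc (a := (a : ℝ)) (b := (b : ℝ)))
  have e : (volume.restrict A).map ((↑) : unitInterval → ℝ) =
      (volume.restrict B).map ((↑) : unitInterval → ℝ) :=
    Real.measure_ext_Ioo_rat fun a b => by rw [key, key, h]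
  have e2 : (volume : Measure unitInterval).restrict A = volume.restrict B :=
    unitInterval.measurableEmbedding_coe.map_injective e
  rw [ae_eq_set]
  constructor
  · have := congrArg (fun m : Measure unitInterval => m Bᶜ) e2
    simp only [Measure.restrict_apply hB.compl, compl_inter_self, measure_empty] at this
    rwa [diff_eq, inter_comm]
  · have := congrArg (fun m : Measure unitInterval => m Aᶜ) e2
    simp only [Measure.restrict_apply hA.compl, compl_inter_self, measure_empty] at this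
    rw [diff_eq, inter_comm]
    exact this.symm

theorem cd_inj {U V : unitInterval → unitInterval} (hU : Measurable U) (hV : Measurable V)
    (h : cd U = cd V) : U =ᵐ[volume] V := by
  have h1 : ∀ p : ℚ × ℚ, U ⁻¹' iv p =ᵐ[volume] V ⁻¹' iv p := fun p =>
    ae_of_iv (hU (iv_meas p)) (hV (iv_meas p)) fun q =>
      (ENNReal.toReal_eq_toReal_iff' (measure_ne_top _ _) (measure_ne_top _ _)).1
        (congrFun h (p, q))
  filter_upwards [ae_all_iff.2 h1] with x hx
  have hx' : ∀ p : ℚ × ℚ, U x ∈ iv p ↔ V x ∈ iv p := fun p => by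
    have := hx p
    exact Iff.of_eq this
  apply Subtype.ext
  rcases lt_trichotomy (U x : ℝ) (V x) with h | h | h
  · obtain ⟨q, q1, q2⟩ := exists_rat_btwn h
    have := (hx' (0, q)).1 ⟨by simpa using (U x).2.1, q1.le⟩
    exact absurd this.2 (not_le.2 q2)
  · exact h
  · obtain ⟨q, q1, q2⟩ := exists_rat_btwn h
    have := (hx' (0, q)).2 ⟨by simpa using (V x).2.1, q1.le⟩
    exact absurd this.2 (not_le.2 q2)

omit [StandardBorelSpace α] in
theorem cd_conj {f : α → unitInterval} {g : unitInterval → α}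
    (hf : MeasurePreserving f μ volume) (hg : Measurable g) (gf : ∀ᵐ x ∂μ, g (f x) = x)
    {T : α → α} (hT : Measurable T) (p : (ℚ × ℚ) × (ℚ × ℚ)) :
    cd (f ∘ T ∘ g) p = (μ (T ⁻¹' (f ⁻¹' iv p.1) ∩ f ⁻¹' iv p.2)).toReal := by
  unfold cd
  congr 1
  rw [← hf.measure_preimage ((((hf.measurable.comp (hT.comp hg)) (iv_meas _)).inter
    (iv_meas _)).nullMeasurableSet), preimage_inter]
  refine measure_congr (EventuallyEq.inter ?_ (ae_eq_refl _))
  filter_upwards [gf] with x hx
  show (f (T (g (f x))) ∈ iv p.1) = (f (T x) ∈ iv p.1)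
  rw [hx]

omit [StandardBorelSpace α] in
theorem push {β : Type} [MeasurableSpace β] [StandardBorelSpace β] {ν : Measure β}
    {f : α → β} {g : β → α}
    (hf : MeasurePreserving f μ ν) (hg : MeasurePreserving g ν μ) (gf : ∀ᵐ x ∂μ, g (f x) = x)
    (fg : ∀ᵐ y ∂ν, f (g y) = y) {T T' : α → α} (hT : MeasurePreserving T μ μ)
    (hT' : Measurable T') (h : ∀ x, T' (T x) = x) :
    ∃ e : β ≃ᵐ β, MeasurePreserving e ν ν ∧ ⇑e =ᵐ[ν] f ∘ T ∘ g := by
  obtain ⟨e, he⟩ := realize' (hf.comp (hT.comp hg))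
    (hf.measurable.comp (hT'.comp hg.measurable)) (by
      filter_upwards [fg, (hT.comp hg).quasiMeasurePreserving.ae gf] with y h1 h2
      simp only [Function.comp] at h2 ⊢
      rw [h2, h, h1])
  exact ⟨e.1, e.2, he⟩

omit [StandardBorelSpace α] in
theorem sq_conj {β : Type} [MeasurableSpace β] {ν : Measure β}
    {f : α → β} {g : β → α}
    (hf : MeasurePreserving f μ ν) (hg : MeasurePreserving g ν μ) (gf : ∀ᵐ x ∂μ, g (f x) = x)
    {T : α → α} (hT : MeasurePreserving T μ μ) {e : β → β} (he : e =ᵐ[ν] f ∘ T ∘ g) :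
    e ∘ e =ᵐ[ν] f ∘ (T ∘ T) ∘ g := by
  filter_upwards [he, (hf.comp (hT.comp hg)).quasiMeasurePreserving.ae he,
    (hT.comp hg).quasiMeasurePreserving.ae gf] with y h1 h2 h3
  simp only [Function.comp] at h1 h2 h3 ⊢
  rw [h1, h2, h3]

theorem analytic_sq : AnalyticSet {c : (ℚ × ℚ) × (ℚ × ℚ) → ℝ |
    ∃ S : unitInterval ≃ᵐ unitInterval, MeasurePreserving (⇑S) volume volume ∧
      c = cd (S.trans S)} := by
  obtain ⟨f, g, hf, hg, gf, fg⟩ := iso01 (μ := mu)
  obtain ⟨Θ, hΘ⟩ : ∃ Θ : G → (ℚ × ℚ) × (ℚ × ℚ) → ℝ, ∀ S, Θ S = cd (f ∘ (S.1 ∘ S.1) ∘ g) :=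
    ⟨_, fun _ => rfl⟩
  have e1 : {c : (ℚ × ℚ) × (ℚ × ℚ) → ℝ |
      ∃ S : unitInterval ≃ᵐ unitInterval, MeasurePreserving (⇑S) volume volume ∧
        c = cd (S.trans S)} = range Θ := by
    ext c
    constructor
    · rintro ⟨S, hS, rfl⟩
      obtain ⟨e, he, he2⟩ := push hg hf fg gf hS S.symm.measurable S.symm_apply_apply
      refine ⟨⟨e, he⟩, ?_⟩
      rw [hΘ]
      refine cd_congr ?_
      filter_upwards [hg.quasiMeasurePreserving.ae (sq_conj hg hf fg hS he2), fg,
        (hS.comp hS).quasiMeasurePreserving.ae fg] with y h1 h2 h3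
      simp only [Function.comp] at h1 h3 ⊢
      rw [h1, h2, h3]
      rfl
    · rintro ⟨S, rfl⟩
      obtain ⟨e, he, he2⟩ := push hf hg gf fg S.2 S.1.symm.measurable S.1.symm_apply_apply
      refine ⟨e, he, ?_⟩
      rw [hΘ]
      exact cd_congr (sq_conj hf hg gf S.2 he2).symm
  rw [e1]
  letI : TopologicalSpace G := TopologicalSpace.induced phi inferInstance
  have h0 : Continuous phi := continuous_induced_dom
  have cΘ : Continuous Θ := by
    refine continuous_pi fun p => ?_
    have hA := hf.measurable (iv_meas p.1)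
    have hB := hf.measurable (iv_meas p.2)
    have h1 : Continuous fun S : G =>
        koop S.1 S.2 (indicatorConstLp 2 hA (measure_ne_top _ _) (1 : ℝ)) :=
      continuous_iff_continuousAt.2 fun S =>
        tendsto_koop (fun T : G => T.2) S.2 ((continuous_fst.comp h0).tendsto S) _
    have h2 : Continuous fun S : G => koop S.1.symm (S.2.symm S.1)
        (indicatorConstLp 2 hB (measure_ne_top _ _) (1 : ℝ)) :=
      continuous_iff_continuousAt.2 fun S =>
        tendsto_koop (fun T : G => T.2.symm T.1) (S.2.symm S.1)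
          ((continuous_snd.comp h0).tendsto S) _
    refine (h1.inner (𝕜 := ℝ) h2).congr fun S => ?_
    rw [← (koop S.1 S.2).inner_map_map, koop_inv, hΘ,
      cd_conj hf hg.measurable gf (S.1.measurable.comp S.1.measurable)]
    have := inner_koop_ind S (S.1.measurable hA) hB 1 1
    rw [mul_one, mul_one] at this
    exact this
  haveI : Fact ((2 : ENNReal) ≠ ⊤) := ⟨by simp⟩
  haveI : PolishSpace (range phi) := isClosed_range_phi.polishSpace
  obtain ⟨s, hs⟩ : ∃ s : range phi → G, ∀ p, phi (s p) = p :=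
    ⟨fun p => p.2.choose, fun p => p.2.choose_spec⟩
  have cs : Continuous s := continuous_induced_rng.2
    (continuous_subtype_val.congr fun p => (hs p).symm)
  have e2 : range Θ = range (Θ ∘ s) := by
    refine Subset.antisymm ?_ (range_comp_subset_range _ _)
    rintro _ ⟨S, rfl⟩
    refine ⟨⟨phi S, S, rfl⟩, ?_⟩
    have : Inseparable (s ⟨phi S, S, rfl⟩) S :=
      (⟨rfl⟩ : IsInducing phi).inseparable_iff.1 (by rw [hs])
    exact (this.map cΘ).eq
  rw [e2]
  exact analyticSet_range_of_polishSpace (cΘ.comp cs)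

end Pool.Agent.H.MP_86dbc5_an
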