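import Mathlib

namespace Pool.Agent.H.MP_86dbc5_an

open Set Filter Topology
open scoped Nat

/-- initial segments, last entry first -/
def nd (z : ℕ → ℕ) : ℕ → List ℕ
  | 0 => []
  | n + 1 => z n :: nd z n

theorem nd_length (z : ℕ → ℕ) (n : ℕ) : (nd z n).length = n := by
  induction n with
  | zero => rfl
  | succ n ih => simp [nd, ih]

theorem nd_eq_iff (z w : ℕ → ℕ) (n : ℕ) : nd z n = nd w n ↔ ∀ i < n, z i = w i := by
  induction n with
  | zero => simp [nd]
  | succ n ih =>
    simp only [nd, List.cons.injEq, ih]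
    constructor
    · rintro ⟨h1, h2⟩ i hi
      rcases Nat.lt_succ_iff_lt_or_eq.1 hi with h | h
      · exact h2 i h
      · rw [h]; exact h1
    · intro h
      exact ⟨h n (Nat.lt_succ_self n), fun i hi => h i (Nat.lt_succ_of_lt hi)⟩

theorem nd_lc (n : ℕ) : IsLocallyConstant fun z : ℕ → ℕ => nd z n := by
  induction n with
  | zero => exact IsLocallyConstant.const _
  | succ n ih =>
    have h : IsLocallyConstant fun z : ℕ → ℕ => z n :=
      (IsLocallyConstant.iff_continuous _).2 (continuous_apply n)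
    exact h.comp₂ ih fun a l => a :: l

/-- indicator of the branch -/
def br (z : ℕ → ℕ) (n : ℕ) : ℤ :=
  if nd z (Denumerable.ofNat (List ℕ) n).length = Denumerable.ofNat (List ℕ) n then 1 else 0

theorem br_abs (z : ℕ → ℕ) (n : ℕ) : |br z n| ≤ 1 := by
  unfold br; split_ifs <;> simp

/-- the independent family -/
noncomputable def th (z : ℕ → ℕ) : ℝ := ∑' n, (br z n : ℝ) * (1 / (2 : ℝ) ^ n !)

theorem summ {a : ℕ → ℤ} {M : ℤ} (h : ∀ n, |a n| ≤ M) :
    Summable fun n => (a n : ℝ) * (1 / (2 : ℝ) ^ n !) := by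
  refine Summable.of_norm_bounded
    ((LiouvilleNumber.summable (m := 2) one_lt_two).mul_left (M : ℝ)) fun n => ?_
  rw [norm_mul, Real.norm_eq_abs, Real.norm_eq_abs, abs_of_pos (a := 1 / (2 : ℝ) ^ n !)
    (by positivity)]
  gcongr
  exact_mod_cast h n

theorem th_cont : Continuous th := by
  refine continuous_tsum (fun n => ?_) (LiouvilleNumber.summable (m := 2) one_lt_two)
    fun n z => ?_
  · refine Continuous.mul ?_ continuous_const
    exact ((nd_lc _).comp fun l => (((if l = Denumerable.ofNat (List ℕ) n then 1 else 0 : ℤ)) : ℝ)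
      ).continuous
  · rw [norm_mul, Real.norm_eq_abs, Real.norm_eq_abs, abs_of_pos (a := 1 / (2 : ℝ) ^ n !)
      (by positivity)]
    refine mul_le_of_le_one_left (by positivity) ?_
    exact_mod_cast br_abs z n

theorem gap {a : ℕ → ℤ} {M : ℤ} (h : ∀ n, |a n| ≤ M) (r : ℤ)
    (hr : 2 * ∑' n, (a n : ℝ) * (1 / (2 : ℝ) ^ n !) = r) : ∀ᶠ n in atTop, a n = 0 := by
  have hs := summ h
  have hM : (0 : ℝ) ≤ M := by exact_mod_cast (abs_nonneg _).trans (h 0)
  have tail : ∀ N : ℕ, 2 ≤ N → M.toNat ≤ N →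
      ∑' i, (a (i + (N + 1)) : ℝ) * (1 / (2 : ℝ) ^ (i + (N + 1))!) = 0 := by
    intro N h2 hN
    set t := ∑' i, (a (i + (N + 1)) : ℝ) * (1 / (2 : ℝ) ^ (i + (N + 1))!) with ht
    have e1 := hs.sum_add_tsum_nat_add (N + 1)
    rw [← ht] at e1
    have hf : 1 ≤ N ! := N.factorial_pos
    have e2 : (2 : ℝ) ^ N ! * t = ((2 ^ (N.factorial - 1) * r -
        ∑ i ∈ Finset.range (N + 1), a i * 2 ^ (N.factorial - i.factorial) : ℤ) : ℝ) := by
      have e3 : (2 : ℝ) ^ N ! = 2 ^ (N.factorial - 1) * 2 := by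
        rw [← pow_succ, Nat.sub_add_cancel hf]
      push_cast
      rw [← hr, ← e1, ← mul_assoc, ← e3, mul_add, Finset.mul_sum, eq_sub_iff_add_eq, add_comm]
      congr 1
      refine Finset.sum_congr rfl fun i hi => ?_
      have : i ! ≤ N ! := Nat.factorial_le (Nat.lt_succ_iff.1 (Finset.mem_range.1 hi))
      rw [pow_sub₀ (2 : ℝ) two_ne_zero this]
      field_simp
    have b1 : |t| ≤ M * LiouvilleNumber.remainder 2 N := by
      unfold LiouvilleNumber.remainder
      rw [← tsum_mul_left, ht, ← Real.norm_eq_abs]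
      refine tsum_of_norm_bounded
        ((LiouvilleNumber.remainder_summable (m := 2) one_lt_two N).mul_left (M : ℝ)).hasSum
        fun n => ?_
      rw [norm_mul, Real.norm_eq_abs, Real.norm_eq_abs,
        abs_of_pos (a := 1 / (2 : ℝ) ^ (n + (N + 1))!) (by positivity)]
      gcongr
      exact_mod_cast h _
    have b2 := LiouvilleNumber.remainder_lt N (m := 2) le_rfl
    have q1 : (1 : ℝ) ≤ 2 ^ N ! := one_le_pow₀ one_le_two
    have b3 : (1 : ℝ) / (2 ^ N !) ^ N ≤ 1 / (2 ^ N !) ^ 2 :=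
      one_div_le_one_div_of_le (by positivity) (pow_le_pow_right₀ q1 h2)
    have b4 : (M : ℝ) < 2 ^ N ! := by
      have : M.toNat < 2 ^ N ! :=
        lt_of_le_of_lt (hN.trans (Nat.self_le_factorial N)) (Nat.lt_two_pow_self)
      have h5 : (M : ℝ) ≤ (M.toNat : ℕ) := by exact_mod_cast Int.self_le_toNat M
      exact h5.trans_lt (by exact_mod_cast this)
    have b5 : |(2 : ℝ) ^ N ! * t| < 1 := by
      rw [abs_mul, abs_of_pos (a := (2 : ℝ) ^ N !) (by positivity)]
      calc (2 : ℝ) ^ N ! * |t| ≤ 2 ^ N ! * (M * (1 / (2 ^ N !) ^ 2)) := by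
            gcongr
            exact b1.trans (mul_le_mul_of_nonneg_left (b2.le.trans b3) hM)
        _ = M / 2 ^ N ! := by field_simp
        _ < 1 := (div_lt_one (by positivity)).2 b4
    rw [e2, ← Int.cast_abs, ← Int.cast_one, Int.cast_lt, Int.abs_lt_one_iff] at b5
    rw [b5, Int.cast_zero] at e2
    exact (mul_eq_zero.1 e2).resolve_left (by positivity)
  filter_upwards [eventually_ge_atTop (3 + M.toNat)] with n hn
  obtain ⟨N, rfl⟩ : ∃ N, n = N + 1 := ⟨n - 1, by omega⟩
  have t1 := tail N (by omega) (by omega)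
  have t2 := tail (N + 1) (by omega) (by omega)
  have hs' := (summable_nat_add_iff (N + 1)).2 hs
  rw [hs'.tsum_eq_zero_add] at t1
  have e : ∀ i, i + 1 + (N + 1) = i + (N + 1 + 1) := fun i => by omega
  simp only [e, t2, zero_add, add_zero] at t1
  exact_mod_cast (mul_eq_zero.1 t1).resolve_right (by positivity)

theorem th_indep {ι : Type} (s : Finset ι) (e : ι → ℕ → ℕ) (m : ι → ℤ) (z : ℕ → ℕ) (c : ℤ)
    (hz : ∀ i ∈ s, e i ≠ z) (r : ℤ) (h : 2 * (c * th z + ∑ i ∈ s, m i * th (e i)) = r) :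
    c = 0 := by
  have hb : ∀ n, |c * br z n + ∑ i ∈ s, m i * br (e i) n| ≤ |c| + ∑ i ∈ s, |m i| := fun n => by
    refine (abs_add_le _ _).trans (add_le_add ?_ ((Finset.abs_sum_le_sum_abs _ _).trans
      (Finset.sum_le_sum fun i _ => ?_)))
    · rw [abs_mul]; exact mul_le_of_le_one_right (abs_nonneg _) (br_abs _ _)
    · rw [abs_mul]; exact mul_le_of_le_one_right (abs_nonneg _) (br_abs _ _)
  have h1 := gap hb r (by
    rw [← h]
    congr 1
    refine HasSum.tsum_eq ?_
    have a1 := (summ (br_abs z)).hasSum.mul_left (c : ℝ)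
    have a2 := hasSum_sum fun i (_ : i ∈ s) => (summ (br_abs (e i))).hasSum.mul_left (m i : ℝ)
    refine (a1.add a2).congr_fun fun n => ?_
    push_cast
    rw [add_mul, Finset.sum_mul]
    simp only [mul_assoc])
  have inj : Function.Injective fun k => Encodable.encode (nd z k) := fun k l hkl => by
    have := congrArg List.length (Encodable.encode_injective hkl)
    simpa [nd_length] using this
  have h2 := inj.nat_tendsto_atTop.eventually h1
  have h3 : ∀ᶠ k in atTop, ∀ i ∈ s, nd (e i) k ≠ nd z k := by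
    rw [Finset.eventually_all]
    intro i hi
    obtain ⟨j, hj⟩ := Function.ne_iff.1 (hz i hi)
    filter_upwards [eventually_gt_atTop j] with k hk hh
    exact hj ((nd_eq_iff _ _ _).1 hh j hk)
  obtain ⟨k, k1, k2⟩ := (h2.and h3).exists
  simp only [br, Denumerable.ofNat_encode, nd_length, if_true, mul_one] at k1
  rw [Finset.sum_eq_zero fun i hi => by rw [if_neg (k2 i hi), mul_zero], add_zero] at k1
  exact k1

end Pool.Agent.H.MP_86dbc5_an
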