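import Mathlib

namespace Pool.Agent.H.MP_86dbc5_an

open MeasureTheory Set Filter Topology
open scoped ComplexConjugate

/-- the basic character of the circle -/
noncomputable def E (x : UnitAddCircle) : ℂ := (AddCircle.toCircle x : ℂ)

theorem E_cont : Continuous E := continuous_subtype_val.comp AddCircle.continuous_toCircle

theorem E_add (x y : UnitAddCircle) : E (x + y) = E x * E y := by
  simp [E, AddCircle.toCircle_add]

theorem E_zero : E 0 = 1 := by simp [E]

theorem E_neg (x : UnitAddCircle) : E (-x) = conj (E x) := by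
  rw [E, E, AddCircle.toCircle_neg, Circle.coe_inv_eq_conj]

theorem E_inj : Function.Injective E := fun _ _ h =>
  AddCircle.injective_toCircle one_ne_zero (Subtype.ext h)

theorem E_norm (x : UnitAddCircle) : ‖E x‖ = 1 := Circle.norm_coe _

variable {K : Type} [AddCommGroup K] [TopologicalSpace K] [IsTopologicalAddGroup K]
  [CompactSpace K] [T2Space K] {O : Type} (c : O → K →+ UnitAddCircle)

/-- integer combinations of the coordinates -/
noncomputable def dm (m : O →₀ ℤ) : K →+ UnitAddCircle := Finsupp.linearCombination ℤ c m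

omit [TopologicalSpace K] [IsTopologicalAddGroup K] [CompactSpace K] [T2Space K] in
theorem dm_apply (m : O →₀ ℤ) (x : K) : dm c m x = ∑ o ∈ m.support, m o • c o x := by
  simp [dm, Finsupp.linearCombination_apply, Finsupp.sum]

omit [IsTopologicalAddGroup K] [CompactSpace K] [T2Space K] in
theorem dm_cont (hc : ∀ o, Continuous (c o)) (m : O →₀ ℤ) : Continuous (dm c m) := by
  have : ⇑(dm c m) = fun x => ∑ o ∈ m.support, m o • c o x := funext (dm_apply c m)
  rw [this]
  exact continuous_finsetSum _ fun o _ => (hc o).zsmul _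

/-- the characters -/
noncomputable def chi (hc : ∀ o, Continuous (c o)) (m : O →₀ ℤ) : C(K, ℂ) :=
  ⟨fun x => E (dm c m x), E_cont.comp (dm_cont c hc m)⟩

omit [IsTopologicalAddGroup K] in
theorem chi_dense (hc : ∀ o, Continuous (c o)) (hs : ∀ x y, (∀ o, c o x = c o y) → x = y) :
    (Submodule.span ℂ (range (chi c hc))).topologicalClosure = ⊤ := by
  let A : StarSubalgebra ℂ C(K, ℂ) :=
    { toSubalgebra := Algebra.adjoin ℂ (range (chi c hc))
      star_mem' := by
        change Algebra.adjoin ℂ (range (chi c hc)) ≤ star (Algebra.adjoin ℂ (range (chi c hc)))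
        refine Algebra.adjoin_le ?_
        rintro _ ⟨n, rfl⟩
        refine Algebra.subset_adjoin ⟨-n, ?_⟩
        ext1 x
        simp only [chi, dm, map_neg, AddMonoidHom.neg_apply, E_neg, ContinuousMap.coe_mk,
          starRingEnd_apply, ContinuousMap.star_apply] }
  have h1 : A.toSubalgebra.toSubmodule = Submodule.span ℂ (range (chi c hc)) := by
    apply Algebra.adjoin_eq_span_of_subset
    refine .trans (fun x => Submonoid.closure_induction (fun _ => id) ⟨0, ?_⟩ ?_)
      Submodule.subset_span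
    · ext z
      simp [chi, dm, E_zero]
    · rintro _ _ _ _ ⟨m, rfl⟩ ⟨n, rfl⟩
      refine ⟨m + n, ?_⟩
      ext z
      simp [chi, dm, E_add]
  have h2 : A.SeparatesPoints := by
    intro x y hxy
    obtain ⟨o, ho⟩ := not_forall.1 fun h => hxy (hs x y h)
    refine ⟨_, ⟨chi c hc (Finsupp.single o 1), Algebra.subset_adjoin ⟨_, rfl⟩, rfl⟩, ?_⟩
    intro h
    apply ho
    apply E_inj
    simpa [chi, dm] using h
  rw [← h1]
  exact congr_arg (Subalgebra.toSubmodule <| StarSubalgebra.toSubalgebra ·)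
    (ContinuousMap.starSubalgebra_topologicalClosure_eq_top_of_separatesPoints _ h2)

variable [SecondCountableTopology K] [MeasurableSpace K] [BorelSpace K] (κ : Measure K)
  [IsProbabilityMeasure κ] [κ.IsAddHaarMeasure]

theorem zero_of_chi (hc : ∀ o, Continuous (c o)) (hs : ∀ x y, (∀ o, c o x = c o y) → x = y)
    {F : K → ℂ} (hF : MemLp F 2 κ) (h : ∀ m, ∫ x, E (dm c m x) * conj (F x) ∂κ = 0) :
    F =ᵐ[κ] 0 := by
  obtain ⟨L, hL⟩ : ∃ L : C(K, ℂ) →L[ℂ] ℂ, ∀ g, L g =
      inner ℂ (hF.toLp F) (ContinuousMap.toLp 2 κ ℂ g) :=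
    ⟨(innerSL ℂ (hF.toLp F)).comp (ContinuousMap.toLp 2 κ ℂ), fun _ => rfl⟩
  have h1 : Submodule.span ℂ (range (chi c hc)) ≤ L.ker := by
    refine Submodule.span_le.2 ?_
    rintro _ ⟨m, rfl⟩
    show L _ = 0
    rw [hL, L2.inner_def, ← h m]
    refine integral_congr_ae ?_
    filter_upwards [hF.coeFn_toLp, ContinuousMap.coeFn_toLp (p := 2) (𝕜 := ℂ) κ (chi c hc m)]
      with x e1 e2
    rw [e1, e2]
    simp [chi]
  have h2 : (⊤ : Submodule ℂ C(K, ℂ)) ≤ L.ker := by
    rw [← chi_dense c hc hs]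
    exact Submodule.topologicalClosure_minimal _ h1 L.isClosed_ker
  have h3 : hF.toLp F = 0 := by
    haveI : Fact ((2 : ENNReal) ≠ ⊤) := ⟨by simp⟩
    refine Dense.eq_zero_of_inner_left (𝕜 := ℂ)
      (ContinuousMap.toLp_denseRange ℂ κ ℂ (p := 2) (by simp)) ?_
    rintro _ ⟨g, rfl⟩
    exact (hL g).symm.trans (h2 Submodule.mem_top)
  filter_upwards [hF.coeFn_toLp, Lp.coeFn_zero ℂ 2 κ] with x e1 e2
  rw [← e1, h3, e2]

omit [CompactSpace K] [T2Space K] [IsProbabilityMeasure κ] in
theorem int_shift {F : K → ℂ} {a : K} {l : ℂ} (h : ∀ᵐ x ∂κ, F (x + a) = l * F x)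
    (m : O →₀ ℤ) (hm : E (dm c m a) * conj l ≠ 1) : ∫ x, E (dm c m x) * conj (F x) ∂κ = 0 := by
  have e1 := integral_add_right_eq_self (μ := κ) (fun x => E (dm c m x) * conj (F x)) a
  have e2 : ∫ x, E (dm c m (x + a)) * conj (F (x + a)) ∂κ =
      (E (dm c m a) * conj l) * ∫ x, E (dm c m x) * conj (F x) ∂κ := by
    rw [← integral_const_mul]
    refine integral_congr_ae ?_
    filter_upwards [h] with x hx
    rw [hx, map_add, E_add, map_mul]
    ring
  rw [e2] at e1
  by_contra hne
  exact hm (mul_right_cancel₀ hne (e1.trans (one_mul _).symm))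

theorem eig (hc : ∀ o, Continuous (c o)) (hs : ∀ x y, (∀ o, c o x = c o y) → x = y)
    {Φ : K → UnitAddCircle} (hΦ : Measurable Φ) {a : K} {b : UnitAddCircle}
    (h : ∀ᵐ x ∂κ, Φ (x + a) = Φ x + b) : ∃ m, dm c m a = b := by
  by_contra hn
  push Not at hn
  have hF : MemLp (fun x => E (Φ x)) 2 κ :=
    MemLp.of_bound (E_cont.measurable.comp hΦ).aestronglyMeasurable 1
      (Eventually.of_forall fun x => (E_norm _).le)
  have := zero_of_chi c κ hc hs hF fun m => int_shift c κ (a := a) (l := E b)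
    (h.mono fun x hx => by rw [hx, E_add, mul_comm]) m (by
      rw [← E_neg, ← E_add, ← E_zero]
      intro hh
      exact hn m (add_neg_eq_zero.1 (E_inj hh)))
  obtain ⟨x, hx⟩ := this.exists
  have h2 := E_norm (Φ x)
  rw [show E (Φ x) = 0 from hx] at h2
  simp at h2

theorem inv_const (hc : ∀ o, Continuous (c o)) (hs : ∀ x y, (∀ o, c o x = c o y) → x = y)
    {Φ : K → UnitAddCircle} (hΦ : Measurable Φ) {a : K} (ha : ∀ m, dm c m a = 0 → dm c m = 0)
    (h : ∀ᵐ x ∂κ, Φ (x + a) = Φ x) : ∀ᵐ x ∂κ, E (Φ x) = ∫ y, E (Φ y) ∂κ := by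
  have hF : MemLp (fun x => E (Φ x)) 2 κ :=
    MemLp.of_bound (E_cont.measurable.comp hΦ).aestronglyMeasurable 1
      (Eventually.of_forall fun x => (E_norm _).le)
  have hG : MemLp (fun x => E (Φ x) - ∫ y, E (Φ y) ∂κ) 2 κ := hF.sub (memLp_const _)
  have := zero_of_chi c κ hc hs hG fun m => by
    by_cases hm : dm c m a = 0
    · simp only [ha m hm, AddMonoidHom.zero_apply, E_zero, one_mul]
      rw [integral_conj, integral_sub (hF.integrable one_le_two) (integrable_const _)]
      simp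
    · refine int_shift c κ (a := a) (l := 1) (h.mono fun x hx => by rw [hx, one_mul]) m ?_
      rw [map_one, mul_one, ← E_zero]
      exact fun hh => hm (E_inj hh)
  filter_upwards [this] with x hx
  exact sub_eq_zero.1 hx

end Pool.Agent.H.MP_86dbc5_an
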