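import Mathlib
import Pool.Agent.H.MP_86dbc5_an.B
import Pool.Agent.H.MP_86dbc5_an.C

namespace Pool.Agent.H.MP_86dbc5_an

open MeasureTheory Set Filter Topology TopologicalSpace

/-- the base -/
abbrev Y := List ℕ → ZMod 2
/-- the index set of the torus -/
abbrev J := List ℕ × Finset ℕ
/-- the fibre -/
abbrev K := (J → UnitAddCircle) × ZMod 2
/-- the total space -/
abbrev X := Y × K

/-- Haar measure on the base -/
noncomputable def nu : Measure Y := Measure.addHaarMeasure ⊤
/-- Haar measure on the fibre -/
noncomputable def kap : Measure K := Measure.addHaarMeasure ⊤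

instance : nu.IsAddHaarMeasure := by unfold nu; infer_instance
instance : kap.IsAddHaarMeasure := by unfold kap; infer_instance
instance : IsProbabilityMeasure nu :=
  ⟨by simpa [nu] using Measure.addHaarMeasure_self (K₀ := (⊤ : PositiveCompacts Y))⟩
instance : IsProbabilityMeasure kap :=
  ⟨by simpa [kap] using Measure.addHaarMeasure_self (K₀ := (⊤ : PositiveCompacts K))⟩

/-- the measure on the total space -/
noncomputable abbrev mX : Measure X := nu.prod kap

instance : NullSingletonClass nu := ⟨fun x => by
  by_contra h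
  refine measure_ne_top nu univ (infinite_univ.meas_eq_top ⟨nu {x}, h, fun y _ => ?_⟩)
  rw [Measure.addHaar_singleton nu x, Measure.addHaar_singleton nu y]⟩

instance : NullSingletonClass mX := inferInstance

/-- coding of the local data by a point of Baire space -/
def en (t : List ℕ) (G : Finset ℕ) (a : ZMod 2) (v : ℕ → ZMod 2) : ℕ → ℕ
  | 0 => Encodable.encode (t, G, a.val)
  | n + 1 => (v n).val

theorem en_inj {t t' : List ℕ} {G G' : Finset ℕ} {a a' : ZMod 2} {v v' : ℕ → ZMod 2}
    (h : en t G a v = en t' G' a' v') : t = t' ∧ G = G' ∧ a = a' ∧ v = v' := by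
  have h0 := Encodable.encode_injective (congrFun h 0)
  simp only [Prod.mk.injEq] at h0
  exact ⟨h0.1, h0.2.1, ZMod.val_injective 2 h0.2.2,
    funext fun n => ZMod.val_injective 2 (congrFun h (n + 1))⟩

/-- the label -/
def lab (j : J) (D : Finset ℕ) (u : Y) : ℕ → ℕ :=
  en j.1 (j.2 \ D) (u j.1 + D.card) fun i => u (i :: j.1) + if i ∈ D then 1 else 0

theorem lab_cont (j : J) (D : Finset ℕ) : Continuous (lab j D) := by
  refine continuous_pi fun n => ?_
  cases n with
  | zero =>
    exact (continuous_of_discreteTopology (f := fun a : ZMod 2 =>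
      Encodable.encode (j.1, j.2 \ D, (a + D.card).val))).comp (continuous_apply j.1)
  | succ n =>
    exact (continuous_of_discreteTopology (f := fun a : ZMod 2 =>
      (a + if n ∈ D then 1 else 0).val)).comp (continuous_apply (n :: j.1))

open Classical in
/-- the part of the index inside the tree -/
noncomputable def cut (C : List ℕ → Prop) (j : J) : Finset ℕ := j.2.filter fun i => C (i :: j.1)

/-- the rotation vector -/
noncomputable def rot (C : List ℕ → Prop) (u : Y) : K :=
  (fun j => ((th (lab j (cut C j) u) : ℝ) : UnitAddCircle), 1)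

theorem rot_cont (C : List ℕ → Prop) : Continuous (rot C) :=
  (continuous_pi fun j => (AddCircle.continuous_mk' 1).comp
    (th_cont.comp (lab_cont j _))).prodMk continuous_const

/-- skew products -/
def sk (β : Y → K) (x : X) : X := (x.1, x.2 + β x.1)

theorem sk_mp {β : Y → K} (hβ : Measurable β) : MeasurePreserving (sk β) mX mX :=
  (MeasurePreserving.id nu).skew_product (g := fun u z => z + β u)
    (measurable_snd.add (hβ.comp measurable_fst))
    (Eventually.of_forall fun u => map_add_right_eq_self kap (β u))

theorem lab_inj (C : List ℕ → Prop) (u : Y) {j j' : J}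
    (h : lab j (cut C j) u = lab j' (cut C j') u) : j = j' := by
  classical
  obtain ⟨t, F⟩ := j
  obtain ⟨t', F'⟩ := j'
  obtain ⟨h1, h2, -, h4⟩ := en_inj h
  dsimp only at h1 h2 h4
  subst h1
  have h5 : cut C (t, F) = cut C (t, F') := by
    ext i
    have := add_left_cancel (congrFun h4 i)
    by_cases a : i ∈ cut C (t, F) <;> by_cases b : i ∈ cut C (t, F') <;> simp_all
  have s1 : cut C (t, F) ⊆ F := Finset.filter_subset _ _
  have s2 : cut C (t, F') ⊆ F' := Finset.filter_subset _ _
  rw [← Finset.sdiff_union_of_subset s1, ← Finset.sdiff_union_of_subset s2, h2, h5]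

theorem chain (C : List ℕ → Prop) {u u' : Y} (hne : u' ≠ u)
    (h : ∀ t, ∃ j, lab j (cut C j) u = lab (t, ∅) (cut C (t, ∅)) u') :
    ∃ (t : ℕ → List ℕ) (i : ℕ → ℕ), ∀ n, t (n + 1) = i n :: t n ∧ C (t (n + 1)) := by
  have step : ∀ t : {t // u' t ≠ u t}, ∃ i, C (i :: t.1) ∧ u' (i :: t.1) ≠ u (i :: t.1) := by
    rintro ⟨t, ht⟩
    obtain ⟨⟨t', F⟩, hj⟩ := h t
    obtain ⟨h1, -, h3, h4⟩ := en_inj hj
    dsimp only at h1 h3 h4
    subst h1
    have e : cut C (t', ∅) = ∅ := by simp [cut]
    rw [e] at h3 h4
    have : (cut C (t', F)).Nonempty := by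
      rw [Finset.nonempty_iff_ne_empty]
      intro h0
      rw [h0] at h3
      exact ht (add_right_cancel h3).symm
    obtain ⟨i, hi⟩ := this
    refine ⟨i, ?_, fun hh => ?_⟩
    · classical exact (Finset.mem_filter.1 hi).2
    · have := congrFun h4 i
      simp only at hh
      simp [hi, hh] at this
  choose i h1 h2 using step
  obtain ⟨t0, ht0⟩ := Function.ne_iff.1 hne
  obtain ⟨s, hs⟩ : ∃ s : ℕ → {t // u' t ≠ u t}, ∀ n, (s (n + 1)).1 = i (s n) :: (s n).1 :=
    ⟨fun n => Nat.rec ⟨t0, ht0⟩ (fun _ p => ⟨i p :: p.1, h2 p⟩) n, fun _ => rfl⟩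
  exact ⟨fun n => (s n).1, fun n => i (s n), fun n => ⟨hs n, by
    show C (s (n + 1)).1
    rw [hs]
    exact h1 _⟩⟩

theorem root (C : List ℕ → Prop) (b : ℕ → ℕ) (hb : ∀ n, C (nd b (n + 1))) :
    ∃ S : X → X, MeasurePreserving S mX mX ∧ ∀ x, S (S x) = sk (rot C) x := by
  classical
  obtain ⟨w, hw⟩ : ∃ w : Y, ∀ s, w s = if nd b s.length = s then 1 else 0 := ⟨_, fun _ => rfl⟩
  obtain ⟨π, hπ⟩ : ∃ π : J → J, ∀ j, π j =
      (j.1, if nd b j.1.length = j.1 then symmDiff j.2 {b j.1.length} else j.2) :=
    ⟨_, fun _ => rfl⟩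
  have ππ : ∀ j, π (π j) = j := by
    rintro ⟨t, F⟩
    rw [hπ, hπ]
    by_cases h : nd b t.length = t <;> simp [h]
  have two : ∀ a : ZMod 2, a + a = 0 := by decide
  have key : ∀ j u, lab j (cut C j) (u + w) = lab (π j) (cut C (π j)) u := by
    rintro ⟨t, F⟩ u
    rw [hπ]
    by_cases h : nd b t.length = t
    · have hC : C (b t.length :: t) := by
        have := hb t.length
        rwa [nd, h] at this
      have e1 : cut C (t, symmDiff F {b t.length}) = symmDiff (cut C (t, F)) {b t.length} := by
        ext i
        simp only [cut, Finset.mem_filter, Finset.mem_symmDiff, Finset.mem_singleton]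
        by_cases hi : i = b t.length <;> simp [hi, hC]
      simp only [h, if_true, lab, e1, Pi.add_apply, hw]
      congr 1
      · ext i
        simp only [cut, Finset.mem_sdiff, Finset.mem_filter, Finset.mem_symmDiff,
          Finset.mem_singleton]
        by_cases hi : i = b t.length <;> simp [hi, hC]
      · rw [add_assoc]
        congr 1
        by_cases hi : b t.length ∈ cut C (t, F)
        · have : symmDiff (cut C (t, F)) {b t.length} = (cut C (t, F)).erase (b t.length) := by
            ext i
            simp only [Finset.mem_symmDiff, Finset.mem_singleton, Finset.mem_erase]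
            by_cases h1 : i = b t.length <;> simp [h1, hi]
          rw [this, ← Finset.card_erase_add_one hi]
          push_cast
          linear_combination two 1
        · have : symmDiff (cut C (t, F)) {b t.length} = insert (b t.length) (cut C (t, F)) := by
            ext i
            simp only [Finset.mem_symmDiff, Finset.mem_singleton, Finset.mem_insert]
            by_cases h1 : i = b t.length <;> simp [h1, hi]
          rw [this, Finset.card_insert_of_notMem hi]
          push_cast
          ring
      · funext i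
        rw [add_assoc]
        congr 1
        simp only [List.length_cons, nd, h, List.cons.injEq, and_true, Finset.mem_symmDiff,
          Finset.mem_singleton]
        by_cases h1 : i = b t.length
        · by_cases h2 : b t.length ∈ cut C (t, F) <;> simp [h1, h2, two]
        · simp [h1, Ne.symm h1]
    · simp [h, lab, hw, nd]
  obtain ⟨ρ, hρ⟩ : ∃ ρ : K →+ K, ∀ z, ρ z = (fun j => z.1 (π j), z.2) :=
    ⟨AddMonoidHom.mk' (fun z => (fun j => z.1 (π j), z.2)) fun _ _ => rfl, fun _ => rfl⟩
  have ρρ : ∀ z, ρ (ρ z) = z := fun z => by simp [hρ, ππ]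
  have cρ : Continuous ρ := by
    have : ⇑ρ = fun z => (fun j => z.1 (π j), z.2) := funext hρ
    rw [this]
    fun_prop
  have mρ : MeasurePreserving ρ kap kap :=
    AddMonoidHom.measurePreserving cρ (fun z => ⟨ρ z, ρρ z⟩) rfl
  have e : ∀ u, ρ (rot C (u + w)) = rot C u := fun u => by
    simp only [hρ, rot, key, ππ]
  have mβ : Measurable fun u : Y => if u [] = 0 then 0 else rot C u :=
    Measurable.ite (measurableSet_eq_fun (measurable_pi_apply []) measurable_const)
      measurable_const (rot_cont C).measurable
  refine ⟨_, ((measurePreserving_add_right nu w).prod mρ).comp (sk_mp mβ), fun x => ?_⟩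
  have ww : x.1 + w + w = x.1 := by
    funext s
    simp only [Pi.add_apply]
    rw [add_assoc, two, add_zero]
  have w0 : w [] = 1 := by simp [hw, nd]
  simp only [Function.comp, sk, Prod.map, ww, map_add, ρρ, Pi.add_apply, w0]
  by_cases h : x.1 [] = 0
  · simp [h, e]
  · have : x.1 [] + 1 = 0 := by
      revert h
      generalize x.1 [] = a
      revert a
      decide
    simp [h, this]

end Pool.Agent.H.MP_86dbc5_an
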