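import Mathlib
import Pool.Agent.H.MP_86dbc5_an.D

namespace Pool.Agent.H.MP_86dbc5_an

open MeasureTheory Set Filter Topology TopologicalSpace

/-- the coordinates of the fibre -/
noncomputable def co : Option J → K →+ UnitAddCircle
  | none => ZMod.toAddCircle.comp (AddMonoidHom.snd _ _)
  | some j => (Pi.evalAddMonoidHom (fun _ : J => UnitAddCircle) j).comp (AddMonoidHom.fst _ _)

theorem tA_cont : Continuous (ZMod.toAddCircle : ZMod 2 → UnitAddCircle) :=
  continuous_of_discreteTopology

theorem co_cont (o : Option J) : Continuous (co o) := by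
  cases o with
  | none => exact tA_cont.comp continuous_snd
  | some j => exact (continuous_apply j).comp continuous_fst

theorem co_sep (x y : K) (h : ∀ o, co o x = co o y) : x = y :=
  Prod.ext (funext fun j => h (some j)) (ZMod.toAddCircle_injective 2 (h none))

/-- labels with a default value -/
noncomputable def lb (C : List ℕ → Prop) (u : Y) : Option J → ℕ → ℕ
  | none => 0
  | some j => lab j (cut C j) u

theorem rel (C : List ℕ → Prop) (u : Y) (m : Option J →₀ ℤ) (x : ℝ)
    (h : dm co m (rot C u) = (x : UnitAddCircle)) :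
    ∃ r : ℤ, 2 * (-x + ∑ o ∈ m.support.erase none, m o * th (lb C u o)) = r := by
  classical
  have e1 : dm co m (rot C u) = m none • co none (rot C u) +
      ∑ o ∈ m.support.erase none, m o • co o (rot C u) := by
    rw [dm_apply]
    by_cases h0 : none ∈ m.support
    · exact (Finset.add_sum_erase _ (fun o => m o • co o (rot C u)) h0).symm
    · rw [Finset.erase_eq_of_notMem h0, Finsupp.notMem_support_iff.1 h0, zero_smul, zero_add]
  have e2 : co none (rot C u) = ((1 / 2 : ℝ) : UnitAddCircle) := by
    have := ZMod.toAddCircle_natCast (N := 2) 1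
    simpa [co, rot] using this
  have e3 : ∑ o ∈ m.support.erase none, m o • co o (rot C u) =
      ((∑ o ∈ m.support.erase none, m o * th (lb C u o) : ℝ) : UnitAddCircle) := by
    rw [QuotientAddGroup.mk_sum]
    refine Finset.sum_congr rfl fun o ho => ?_
    cases o with
    | none => simp at ho
    | some j =>
      rw [← zsmul_eq_mul, AddCircle.coe_zsmul]
      rfl
  rw [e1, e2, e3, ← AddCircle.coe_zsmul, ← AddCircle.coe_add, ← sub_eq_zero,
    ← AddCircle.coe_sub, AddCircle.coe_eq_zero_iff] at h
  obtain ⟨n, hn⟩ := h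
  refine ⟨2 * n - m none, ?_⟩
  simp only [zsmul_eq_mul, mul_one] at hn
  push_cast
  linarith

theorem rot_indep (C : List ℕ → Prop) (u : Y) (m : Option J →₀ ℤ)
    (h : dm co m (rot C u) = 0) : dm co m = 0 := by
  classical
  obtain ⟨r, hr⟩ := rel C u m 0 (by simpa using h)
  have e : m.support.erase none = ∅ := by
    rw [Finset.eq_empty_iff_forall_notMem]
    intro o ho
    rw [neg_zero, zero_add, ← Finset.add_sum_erase _ _ ho] at hr
    refine Finsupp.mem_support_iff.1 (Finset.mem_of_mem_erase ho)
      (th_indep _ (lb C u) m _ _ (fun p hp hh => ?_) r hr)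
    obtain ⟨p1, p2⟩ := Finset.mem_erase.1 hp
    cases o with
    | none => simp at ho
    | some j =>
      cases p with
      | none => simp at p2
      | some j' => exact p1 (congrArg some (lab_inj C u hh))
  have e1 : ∀ z, dm co m z = m none • co none z := fun z => by
    rw [dm_apply]
    by_cases h0 : none ∈ m.support
    · rw [← Finset.add_sum_erase _ (fun o => m o • co o z) h0, e, Finset.sum_empty, add_zero]
    · rw [Finset.erase_eq_of_notMem h0] at e
      rw [e, Finset.sum_empty, Finsupp.notMem_support_iff.1 h0, zero_smul]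
  ext1 z
  rw [e1] at h ⊢
  have : ∀ a : ZMod 2, a = 0 ∨ a = 1 := by decide
  rcases this z.2 with h2 | h2
  · simp [co, h2]
  · simpa [co, rot, h2] using h

theorem rot_eig (C : List ℕ → Prop) (u : Y) (m : Option J →₀ ℤ) (z : ℕ → ℕ)
    (h : dm co m (rot C u) = ((th z : ℝ) : UnitAddCircle)) : ∃ j, lab j (cut C j) u = z := by
  classical
  obtain ⟨r, hr⟩ := rel C u m _ h
  by_contra hn
  push Not at hn
  have := th_indep (m.support.erase none) (lb C u) m z (-1) (fun o ho => by
    cases o with
    | none => simp at ho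
    | some j => exact hn j) r (by rw [← hr]; push_cast; ring)
  simp at this

theorem no_root (C : List ℕ → Prop) {S : X → X} (hS : MeasurePreserving S mX mX)
    (hSS : ∀ᵐ x ∂mX, S (S x) = sk (rot C) x) :
    ∃ (t : ℕ → List ℕ) (i : ℕ → ℕ), ∀ n, t (n + 1) = i n :: t n ∧ C (t (n + 1)) := by
  by_contra hn
  have mS := hS.measurable
  have comm : ∀ᵐ x ∂mX, S (sk (rot C) x) = sk (rot C) (S x) := by
    filter_upwards [hSS, hS.quasiMeasurePreserving.ae hSS] with x h1 h2
    rw [← h1, h2]
  have c2 := Measure.ae_ae_of_ae_prod comm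
  have h1 : ∀ᵐ x ∂mX, (S x).1 = x.1 := by
    refine (Measure.ae_prod_iff_ae_ae (p := fun x : X => (S x).1 = x.1)
      (measurableSet_eq_fun (measurable_fst.comp mS) measurable_fst)).2 ?_
    filter_upwards [c2] with u hu
    have mu : Measurable fun z : K => S (u, z) := mS.comp measurable_prodMk_left
    have a1 : ∀ t, ∀ᵐ z ∂kap, E (ZMod.toAddCircle ((S (u, z)).1 t)) =
        ∫ y, E (ZMod.toAddCircle ((S (u, y)).1 t)) ∂kap := fun t =>
      inv_const co kap co_cont co_sep (Φ := fun z => ZMod.toAddCircle ((S (u, z)).1 t))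
        (tA_cont.measurable.comp ((measurable_pi_apply t).comp mu.fst)) (rot_indep C u)
        (hu.mono fun z hz => by
          have := congrArg (fun x : X => ZMod.toAddCircle (x.1 t)) hz
          exact this)
    obtain ⟨z0, hz0⟩ := (ae_all_iff.2 a1).exists
    have a2 : ∀ᵐ z ∂kap, (S (u, z)).1 = (S (u, z0)).1 := by
      filter_upwards [ae_all_iff.2 a1] with z hz
      funext t
      exact ZMod.toAddCircle_injective 2 (E_inj ((hz t).trans (hz0 t).symm))
    have a3 : (S (u, z0)).1 = u := by
      by_contra hne
      refine hn (chain C hne fun t => ?_)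
      obtain ⟨m, hm⟩ := eig co kap co_cont co_sep (Φ := fun z => (S (u, z)).2.1 (t, ∅))
        ((measurable_pi_apply _).comp mu.snd.fst) (a := rot C u)
        (b := (rot C (S (u, z0)).1).1 (t, ∅)) (by
          filter_upwards [hu, a2] with z hz hz2
          rw [← hz2]
          have := congrArg (fun x : X => x.2.1 (t, ∅)) hz
          exact this)
      exact rot_eig C u m _ hm
    filter_upwards [a2] with z hz
    rw [hz, a3]
  obtain ⟨H, hH⟩ : ∃ H : X → UnitAddCircle, ∀ x, H x = ZMod.toAddCircle ((S x).2.2 - x.2.2) :=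
    ⟨_, fun _ => rfl⟩
  have mH : Measurable H := by
    rw [funext hH]
    exact tA_cont.measurable.comp (mS.snd.snd.sub measurable_snd.snd)
  have mE : Measurable fun x => E (H x) := E_cont.measurable.comp mH
  have mg : Measurable fun u : Y => ∫ y, E (H (u, y)) ∂kap :=
    (mE.stronglyMeasurable.integral_prod_right' (ν := kap)).measurable
  have h2 : ∀ᵐ x ∂mX, E (H x) = ∫ y, E (H (x.1, y)) ∂kap := by
    refine (Measure.ae_prod_iff_ae_ae (p := fun x : X => E (H x) = ∫ y, E (H (x.1, y)) ∂kap)
      (measurableSet_eq_fun mE (mg.comp measurable_fst))).2 ?_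
    filter_upwards [c2] with u hu
    refine inv_const co kap co_cont co_sep (Φ := fun z => H (u, z))
      (mH.comp measurable_prodMk_left) (rot_indep C u) (hu.mono fun z hz => ?_)
    have : (S (u, z + rot C u)).2.2 = (S (u, z)).2.2 + 1 := by
      have := congrArg (fun x : X => x.2.2) hz
      exact this
    simp only [hH, this]
    congr 1
    simp [rot]
  obtain ⟨x, ⟨x1, x2⟩, x3, x4⟩ :=
    ((h1.and h2).and ((hS.quasiMeasurePreserving.ae h2).and hSS)).exists
  rw [x1, ← x2] at x3
  have := ZMod.toAddCircle_injective 2 ((hH _).symm.trans ((E_inj x3).trans (hH _)))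
  rw [x4] at this
  have e : ∀ a b : ZMod 2, a + 1 - b ≠ b - a := by decide
  exact e _ _ this

end Pool.Agent.H.MP_86dbc5_an
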