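import Mathlib
import Pool.Agent.H.MP_86dbc5_an.A
import Pool.Agent.H.MP_86dbc5_an.E

namespace Pool.Agent.H.MP_86dbc5_an

open MeasureTheory Set Filter Topology TopologicalSpace

theorem tree {B : Set (ℕ → ℕ)} (hB : AnalyticSet B) :
    ∃ C : (ℕ → ℕ) → List ℕ → Prop, (∀ s, IsLocallyConstant fun y => C y s) ∧
      (∀ y ∈ B, ∃ b, ∀ n, C y (nd b (n + 1))) ∧
      ∀ (y : ℕ → ℕ) (t : ℕ → List ℕ) (i : ℕ → ℕ),
        (∀ n, t (n + 1) = i n :: t n ∧ C y (t (n + 1))) → y ∈ B := by
  rw [AnalyticSet] at hB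
  rcases hB with rfl | ⟨f, hf, rfl⟩
  · exact ⟨fun _ _ => False, fun _ => IsLocallyConstant.const _, fun y hy => hy.elim,
      fun y t i h => (h 0).2⟩
  refine ⟨fun y s => ∃ z, nd z s.length = s ∧ nd (f z) s.length = nd y s.length, fun s => ?_,
    ?_, fun y t i h => ?_⟩
  · exact (nd_lc s.length).comp fun l => ∃ z, nd z s.length = s ∧ nd (f z) s.length = l
  · rintro _ ⟨z, rfl⟩
    exact ⟨z, fun n => ⟨z, by rw [nd_length], rfl⟩⟩
  · choose z hz1 hz2 using fun n => (h n).2
    have hl : ∀ n, (t (n + 1)).length = (t n).length + 1 := fun n => by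
      rw [(h n).1, List.length_cons]
    have hl2 : ∀ n, n ≤ (t n).length := fun n => by
      induction n with
      | zero => exact Nat.zero_le _
      | succ n ih => rw [hl]; omega
    have st : ∀ n k, k ≤ n → z (n + 1) k = z n k := fun n k hk => by
      have e := hz1 (n + 1)
      rw [hl, (h (n + 1)).1, nd, List.cons.injEq] at e
      exact (nd_eq_iff _ _ _).1 (e.2.trans (hz1 n).symm) k (by have := hl2 (n + 1); omega)
    have st2 : ∀ k n, k ≤ n → z n k = z k k := fun k n hk => by
      induction n, hk using Nat.le_induction with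
      | base => rfl
      | succ n hk ih => rw [st n k hk, ih]
    have lim : Tendsto z atTop (𝓝 fun k => z k k) := tendsto_pi_nhds.2 fun k =>
      tendsto_const_nhds.congr' ((eventually_ge_atTop k).mono fun n hn => (st2 k n hn).symm)
    have lim2 : Tendsto (fun n => f (z n)) atTop (𝓝 y) := tendsto_pi_nhds.2 fun k =>
      tendsto_const_nhds.congr' ((eventually_ge_atTop k).mono fun n hn =>
        ((nd_eq_iff _ _ _).1 (hz2 n) k (by have := hl2 (n + 1); omega)).symm)
    exact ⟨_, tendsto_nhds_unique ((hf.tendsto _).comp lim) lim2⟩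

theorem joint {C : (ℕ → ℕ) → List ℕ → Prop} (hC : ∀ s, IsLocallyConstant fun y => C y s) :
    Continuous fun p : (ℕ → ℕ) × X => sk (rot (C p.1)) p.2 := by
  refine (continuous_fst.comp continuous_snd).prodMk
    ((continuous_snd.comp continuous_snd).add (Continuous.prodMk (continuous_pi fun j => ?_)
      continuous_const))
  refine continuous_iff_continuousAt.2 fun p => ?_
  have c : Continuous fun q : (ℕ → ℕ) × X => (rot (C p.1) q.2.1).1 j :=
    (continuous_apply j).comp ((rot_cont _).comp (continuous_fst.comp continuous_snd)).fst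
  refine c.continuousAt.congr ?_
  have : ∀ᶠ y in 𝓝 p.1, ∀ i ∈ j.2, C y (i :: j.1) = C p.1 (i :: j.1) :=
    (Finset.eventually_all _).2 fun i _ => (hC _).eventually_eq p.1
  filter_upwards [(continuous_fst.tendsto p).eventually this] with q hq
  have e : cut (C p.1) j = cut (C q.1) j := by
    classical
    ext i
    simp only [cut, Finset.mem_filter]
    exact and_congr_right fun hi => by rw [hq i hi]
  simp only [rot, e]

theorem cont_meas {C : (ℕ → ℕ) → List ℕ → Prop} (hC : ∀ s, IsLocallyConstant fun y => C y s)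
    {A B : Set X} (hA : MeasurableSet A) :
    Continuous fun y => (mX (sk (rot (C y)) ⁻¹' A ∩ B)).toReal := by
  obtain ⟨Φ, hΦ⟩ : ∃ Φ : C(ℕ → ℕ, C(X, X)), ∀ y, ⇑(Φ y) = sk (rot (C y)) :=
    ⟨ContinuousMap.curry ⟨_, joint hC⟩, fun _ => rfl⟩
  refine continuous_iff_continuousAt.2 fun y => ?_
  have hm : ∀ y, MeasurePreserving (Φ y) mX mX := fun y => by
    rw [hΦ]; exact sk_mp (rot_cont _).measurable
  haveI : BorelSpace X := Prod.borelSpace
  haveI : mX.Regular := Measure.Regular.of_sigmaCompactSpace_of_isLocallyFiniteMeasure mX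
  have h := tendsto_measure_symmDiff_preimage_nhds_zero (Φ.continuous.tendsto y)
    (Eventually.of_forall hm) (hm y) hA.nullMeasurableSet (measure_ne_top _ _)
  have h2 := (ENNReal.tendsto_toReal ENNReal.zero_ne_top).comp h
  rw [ContinuousAt, tendsto_iff_dist_tendsto_zero]
  refine squeeze_zero (fun _ => dist_nonneg) (fun w => ?_) h2
  simp only [Function.comp, hΦ]
  have k : ∀ P Q : Set X, (mX (P ∩ B)).toReal - (mX (Q ∩ B)).toReal ≤
      (mX (symmDiff P Q)).toReal := fun P Q => by
    have : mX.real (P ∩ B) ≤ mX.real (Q ∩ B) + mX.real (symmDiff P Q) := by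
      refine (measureReal_mono ?_).trans (measureReal_union_le _ _)
      rintro x ⟨x1, x2⟩
      by_cases hx : x ∈ Q
      · exact Or.inl ⟨hx, x2⟩
      · exact Or.inr (Or.inl ⟨x1, hx⟩)
    simp only [Measure.real] at this
    linarith
  rw [Real.dist_eq, abs_sub_le_iff]
  exact ⟨k _ _, by rw [symmDiff_comm]; exact k _ _⟩

theorem hard {B : Set (ℕ → ℕ)} (hB : AnalyticSet B) :
    ∃ f : (ℕ → ℕ) → ((ℚ × ℚ) × (ℚ × ℚ) → ℝ), Continuous f ∧
      (∀ y : ℕ → ℕ, ∃ T : unitInterval ≃ᵐ unitInterval,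
        MeasurePreserving (⇑T) volume volume ∧ f y = cd T) ∧
      ∀ y : ℕ → ℕ, (y ∈ B ↔ ∃ S : unitInterval ≃ᵐ unitInterval,
        MeasurePreserving (⇑S) volume volume ∧ f y = cd (S.trans S)) := by
  obtain ⟨C, c1, c2, c3⟩ := tree hB
  obtain ⟨f, g, hf, hg, gf, fg⟩ := iso01 (μ := mX)
  have hT : ∀ y, MeasurePreserving (sk (rot (C y))) mX mX := fun y =>
    sk_mp (rot_cont _).measurable
  have hT' : ∀ y, Measurable (sk fun u => -rot (C y) u) := fun y =>
    (sk_mp (rot_cont _).neg.measurable).measurable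
  have inv : ∀ y x, sk (fun u => -rot (C y) u) (sk (rot (C y)) x) = x := fun y x => by
    simp [sk]
  refine ⟨fun y => cd (f ∘ sk (rot (C y)) ∘ g), continuous_pi fun p => ?_, fun y => ?_,
    fun y => ⟨fun hy => ?_, ?_⟩⟩
  · simp only [cd_conj hf hg.measurable gf (hT _).measurable]
    exact cont_meas c1 (hf.measurable (iv_meas _))
  · obtain ⟨e, he, he2⟩ := push hf hg gf fg (hT y) (hT' y) (inv y)
    exact ⟨e, he, cd_congr he2.symm⟩
  · obtain ⟨b, hb⟩ := c2 y hy
    obtain ⟨S, hS, hSS⟩ := root (C y) b hb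
    obtain ⟨e, he, he2⟩ := push hf hg gf fg hS ((hT' y).comp hS.measurable) fun x => by
      simp only [Function.comp, hSS, inv]
    refine ⟨e, he, cd_congr ?_⟩
    have : S ∘ S = sk (rot (C y)) := funext hSS
    rw [← this]
    exact (sq_conj hf hg gf hS he2).symm
  · rintro ⟨S, hS, h⟩
    have h1 := cd_inj (hf.measurable.comp ((hT y).measurable.comp hg.measurable))
      (S.trans S).measurable h
    obtain ⟨t, i, ht⟩ := no_root (C y) (hg.comp (hS.comp hf)) (by
      filter_upwards [hf.quasiMeasurePreserving.ae h1, gf,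
        (hS.comp hf).quasiMeasurePreserving.ae fg, (hT y).quasiMeasurePreserving.ae gf]
        with x e1 e2 e3 e4
      simp only [Function.comp, MeasurableEquiv.coe_trans] at e1 e3 ⊢
      rw [e3, ← e1, e2, e4])
    exact c3 y t i ht

end Pool.Agent.H.MP_86dbc5_an
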